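import Pool.Agent.L7h20.NF.All
import Pool.Agent.L7h45.NF.Closed
import Pool.Agent.L7h75.AH.Top

/-!
# Fold-free maps to smooth structures on `S¹ × S³` and on the twisted product

Let `N` be a smooth 4-manifold homeomorphic to `S¹ × S³` or to the twisted product, `M` any closed
connected smooth 4-manifold (not assumed to be homeomorphic to `N`) and `f : M → N` a smooth map (not
assumed to be injective or open) such that

* the rank of the derivative of `f` is at least three at all points,
* the points at which `f` is a local diffeomorphism are dense in `M`,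
* `f` has no folds: near each point, in suitable smooth coordinates of `M` and `N`, the Jacobian determinant
  of `f` is nonnegative,
* `f` is onto on fundamental groups, or some point of `M` at which `f` is a local diffeomorphism is
  alone in its fibre.

Then `f` is a limit of diffeomorphisms `M → N`; in particular `M` and `N` are diffeomorphic. So two
smooth structures on `S¹ × S³` (or on the twisted product) are different if and only if there is no such
map between them.

The starting result `SmoothCorankOne` needs that `f` is a homeomorphism. If folds are allowed such maps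
exist between any two smooth structures (Eliashberg).

Idea. Let `Σ` be the set of the points at which `f` is not a local diffeomorphism. Find a smooth section
`V` of `f* TN` such that the derivative of the Jacobian of `f + ε V` at `ε = 0` is positive on `Σ`; for small
`ε` the perturbed map is a local diffeomorphism, hence a covering map, and by the last condition
a diffeomorphism. The section exists, by an argument on the curves along which `f` may be constant: in
suitable boxes `f` has the form `(t, y) ↦ (h (t, y), y)` with `∂h/∂t ≥ 0`, and positivity propagates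
along the curves `y = const`; a set of such curves mapped to one point, on which this is impossible, is
compact, and a function increasing along these curves has a maximum on it.

By helper8, helper13, helper20, helper21, helper38, helper45, helper58, helper81, helper82 and helper97
(topology of the two model spaces: helper75).
-/

set_option autoImplicit false

open Set Filter Topology Metric
open scoped Manifold ContDiff

noncomputable section

namespace Pool.Agent.Results.MP_6db3ee_gt.FoldFreeMaps

/-- `ℝⁿ` -/
abbrev R (n : ℕ) : Type := EuclideanSpace ℝ (Fin n)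

/-- the product `S¹ × S³` -/
abbrev Prod13 : Type := Circle × Metric.sphere (0 : R 4) 1

/-- the twisted product: the unit sphere bundle of the sum of the Moebius line bundle over the
circle (the line over `p` consists of the `z` with `z ^ 2 = |z| ^ 2 p`) and a trivial bundle of
rank three -/
abbrev Twisted13 : Type := {p : ℂ × ℂ × EuclideanSpace ℝ (Fin 3) //
  ‖p.1‖ = 1 ∧ p.2.1 ^ 2 = ((‖p.2.1‖ ^ 2 : ℝ) : ℂ) * p.1 ∧ ‖p.2.1‖ ^ 2 + ‖p.2.2‖ ^ 2 = 1}

section defs

variable {M N : Type} [TopologicalSpace M] [ChartedSpace (R 4) M] [TopologicalSpace N]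
  [ChartedSpace (R 4) N]

/-- the derivative of `f` at `x`, as a linear map from `ℝ⁴` to `ℝ⁴` (in the preferred charts at `x` and
`f x`) -/
def der (f : M → N) (x : M) : R 4 →L[ℝ] R 4 := mfderiv (𝓡 4) (𝓡 4) f x

/-- the rank of the derivative of `f` at `x` -/
def rank (f : M → N) (x : M) : ℕ := Module.finrank ℝ (LinearMap.range (der f x).toLinearMap)

/-- `f` is a local diffeomorphism (of class `C^∞`) at `x` -/
def LocDiff (f : M → N) (x : M) : Prop := IsLocalDiffeomorphAt (𝓡 4) (𝓡 4) ∞ f x

/-- `A : ℝ⁴ → M` is a smooth parametrization of `M` near `x = A 0` (it is a local diffeomorphism at `0`) -/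
def IsParam (A : R 4 → M) (x : M) : Prop := A 0 = x ∧ LocDiff A 0

/-- `f` has no fold at `x`: in suitable smooth coordinates `A` of `M` near `x` and `B` of `N` near `f x` the
Jacobian determinant of `f` is nonnegative near `x` -/
def NoFold (f : M → N) (x : M) : Prop :=
  ∃ (A : R 4 → M) (B : N → R 4), IsParam A x ∧ LocDiff B (f x) ∧
    ∀ᶠ z in 𝓝 (0 : R 4), 0 ≤ (fderiv ℝ (fun w => B (f (A w))) z).det

/-- `f` is smooth, of rank at least three, regular at a dense set of points and has no folds -/
def FoldFree (f : M → N) : Prop :=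
  ContMDiff (𝓡 4) (𝓡 4) ∞ f ∧ (∀ x, 3 ≤ rank f x) ∧ Dense {x | LocDiff f x} ∧ ∀ x, NoFold f x

/-- `f` is onto on fundamental groups: every loop at a point `f x` is homotopic (relative to its end points)
to the image of a loop at `x` -/
def OntoPi1 (f : C(M, N)) : Prop :=
  ∀ (x : M) (γ : Path (f x) (f x)), ∃ δ : Path x x, (δ.map f.continuous).Homotopic γ

/-- some point at which `f` is a local diffeomorphism is alone in its fibre -/
def OnePoint (f : M → N) : Prop := ∃ x, LocDiff f x ∧ ∀ x', f x' = f x → x' = x

end defs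

/-- The fold-free maps from a closed connected smooth 4-manifold `M` to a smooth structure `N` on `S¹ × S³`
or on the twisted product, which are onto on fundamental groups or for which some regular point is alone in
its fibre, are limits of diffeomorphisms, and there is one if and only if `M` and `N` are diffeomorphic. -/
theorem result (M N : Type)
    [TopologicalSpace M] [T2Space M] [CompactSpace M] [ConnectedSpace M] [ChartedSpace (R 4) M]
    [IsManifold (𝓡 4) ∞ M]
    [TopologicalSpace N] [ChartedSpace (R 4) N] [IsManifold (𝓡 4) ∞ N]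
    (hN : Nonempty (N ≃ₜ Prod13) ∨ Nonempty (N ≃ₜ Twisted13)) :
    (∀ f : C(M, N), FoldFree f → OntoPi1 f ∨ OnePoint f →
      ∀ O : Set (M × N), IsOpen O → (∀ x, (x, f x) ∈ O) →
        ∃ Φ : Diffeomorph (𝓡 4) (𝓡 4) M N ∞, ∀ x, (x, Φ x) ∈ O) ∧
    (Nonempty (Diffeomorph (𝓡 4) (𝓡 4) M N ∞) ↔
      ∃ f : C(M, N), FoldFree f ∧ (OntoPi1 f ∨ OnePoint f)) := by
  have hN' : CompactSpace N ∧ ConnectedSpace N ∧ T2Space N := by
    obtain ⟨h1, h2, h3, h4⟩ := Pool.Agent.L7h75.AH.s_TOP
    rcases hN with ⟨⟨j⟩⟩ | ⟨⟨j⟩⟩
    · have : CompactSpace Prod13 := h1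
      have : ConnectedSpace Prod13 := h2
      exact ⟨j.symm.compactSpace, j.symm.surjective.connectedSpace j.symm.continuous,
        j.symm.t2Space⟩
    · have : CompactSpace Twisted13 := h3
      have : ConnectedSpace Twisted13 := h4
      exact ⟨j.symm.compactSpace, j.symm.surjective.connectedSpace j.symm.continuous,
        j.symm.t2Space⟩
  obtain ⟨hc, hs, ht⟩ := hN'
  have key : ∀ f : C(M, N), FoldFree f → OntoPi1 f ∨ OnePoint f →
      ∀ O : Set (M × N), IsOpen O → (∀ x, (x, f x) ∈ O) →
        ∃ Φ : Diffeomorph (𝓡 4) (𝓡 4) M N ∞, ∀ x, (x, Φ x) ∈ O := by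
    rintro f ⟨h1, h2, h3, h4⟩ h5 O hO hfO
    have hS : Pool.Agent.L7h20.NF.SettingY (m := 3) (f : M → N) := by
      refine Pool.Agent.L7h20.NF.setting_of f h1 h3 fun x => ?_
      obtain ⟨A, B, ⟨hA0, hA⟩, hB, hd⟩ := h4 x
      exact ⟨A, B, hA0, hA, hB, hd⟩
    rcases h5 with h5 | ⟨x, hx1, hx2⟩
    · obtain ⟨Φ, hΦ, -⟩ := Pool.Agent.L7h45.NF.s_CLOSED Pool.Agent.L7h20.NF.s_COREY 3 M N f hS
        (fun x _ => h2 x) h5 O hO hfO
      exact ⟨Φ, hΦ⟩
    · exact Pool.Agent.L7h20.NF.closed1 Pool.Agent.L7h20.NF.s_COREY 3 M N f hS (fun x _ => h2 x)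
        x hx1 hx2 O hO hfO
  refine ⟨key, ?_, ?_⟩
  · rintro ⟨Φ⟩
    have hl : ∀ x, LocDiff Φ x := fun x => Φ.isLocalDiffeomorph x
    obtain ⟨x₀⟩ : Nonempty M := inferInstance
    refine ⟨⟨Φ, Φ.continuous⟩, ⟨Φ.contMDiff,
      fun x => Pool.Agent.L7h20.NF.rk_of_ld (m := 3) Φ x (hl x),
      dense_iff_inter_open.2 fun U _ hU => hU.mono fun x hx => ⟨hx, hl x⟩, fun x => ?_⟩,
      Or.inr ⟨x₀, hl x₀, fun x' hx' => Φ.injective hx'⟩⟩
    obtain ⟨A, B, hA0, hA, hB, hd⟩ := Pool.Agent.L7h20.NF.noFold_of_ld (m := 3) Φ x (hl x)
    exact ⟨A, B, ⟨hA0, hA⟩, hB, hd⟩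
  · rintro ⟨f, hf, hf2⟩
    obtain ⟨Φ, -⟩ := key f hf hf2 univ isOpen_univ fun x => mem_univ _
    exact ⟨Φ⟩

end Pool.Agent.Results.MP_6db3ee_gt.FoldFreeMaps
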