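import Pool.Agent.L7h17.AH.RelF
import Pool.Agent.L7h75.AH.Top

/-!
# Nearly affine homeomorphisms between smooth structures on `S¹ × S³` and `S¹ ×~ S³`

Let `M`, `N` be smooth 4-manifolds homeomorphic to `S¹ × S³` or to the twisted product, embedded in
Euclidean spaces by `ι`, `κ`, and `f : M → N` a homeomorphism. At a scale `r` and a point `x` the map `f`
is `ε`-nearly affine if on the ball of radius `r` about `x` it differs from a linear map `T` by at most
`ε l r`, where `l` is a lower bound for the expansion of `T` on the tangent space `T_x M`. There is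
`ε > 0`, depending only on the dimension of the Euclidean space containing `M`, such that: if `f` is
a local diffeomorphism off an open set `W`, and at the points of `W` it is `ε`-nearly affine for
arbitrarily small scales `r`, with linear maps of bounded distortion (the bound may be arbitrarily
large), then every neighbourhood of the graph of `f` contains the graph of a diffeomorphism which agrees
with `f` off `W`. So `M` and `N` are diffeomorphic. No condition is put on the numbers `l`, and `T` may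
turn and change with the point and the scale.

By helper17 and helper75.
-/

set_option autoImplicit false

open Set Metric Filter Topology
open scoped Manifold ContDiff

noncomputable section

namespace Pool.Agent.Results.MP_6db3ee_gt.NearlyAffineHomeomorphisms

/-- `ℝⁿ` -/
abbrev R (n : ℕ) : Type := EuclideanSpace ℝ (Fin n)

/-- the product `S¹ × S³` -/
abbrev Prod13 : Type := Circle × Metric.sphere (0 : R 4) 1

/-- the twisted product: the unit sphere bundle of the sum of the Moebius line bundle over the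
circle (the line over `p` consists of the `z` with `z ^ 2 = |z| ^ 2 p`) and a trivial bundle of
rank three -/
abbrev Twisted13 : Type := {p : ℂ × ℂ × EuclideanSpace ℝ (Fin 3) //
  ‖p.1‖ = 1 ∧ p.2.1 ^ 2 = ((‖p.2.1‖ ^ 2 : ℝ) : ℂ) * p.1 ∧ ‖p.2.1‖ ^ 2 + ‖p.2.2‖ ^ 2 = 1}

/-- smooth structures on `S¹ × S³` and on the twisted product: smooth 4-manifolds homeomorphic to one
of these -/
structure Mfd where
  /-- the set of points -/
  pts : Type
  [top : TopologicalSpace pts]
  [chart : ChartedSpace (R 4) pts]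
  smooth : IsManifold (𝓡 4) ∞ pts
  model : Nonempty (pts ≃ₜ Prod13) ∨ Nonempty (pts ≃ₜ Twisted13)

instance : CoeSort Mfd Type := ⟨Mfd.pts⟩

instance (M : Mfd) : TopologicalSpace M := M.top

instance (M : Mfd) : ChartedSpace (R 4) M := M.chart

section defs

variable {a b : ℕ} {M N : Mfd}

/-- the derivative of `ι : M → ℝᵃ` at `x`, as a linear map from `ℝ⁴` (the tangent space of `M` at `x` in
the preferred chart) to `ℝᵃ` -/
def der (ι : M → R a) (x : M) : R 4 →L[ℝ] R a := mfderiv (𝓡 4) 𝓘(ℝ, R a) ι x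

/-- `ι` is an injective smooth immersion (a smooth embedding, as `M` is compact) -/
def SmoothEmbedding (ι : M → R a) : Prop :=
  ContMDiff (𝓡 4) 𝓘(ℝ, R a) ∞ ι ∧ Function.Injective ι ∧ ∀ x, Function.Injective (der ι x)

/-- `f` is a local diffeomorphism (of class `C^∞`, with smooth inverse) at `x` -/
def LocDiff (f : M → N) (x : M) : Prop := IsLocalDiffeomorphAt (𝓡 4) (𝓡 4) ∞ f x

/-- `f : M → N` is `ε`-nearly affine at the point `x` and the scale `r`, with distortion at most `D`:
there are `l > 0` and a linear map `T` with `‖T v‖ ≤ D l ‖v‖` for all `v`, `l ‖v‖ ≤ ‖T v‖` for the `v`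
tangent to `M` at `x`, and `f y = f x + T (y - x)` up to `ε l r` for all `y` in `M` with `‖y - x‖ ≤ r`
(`M`, `N` are considered as subsets of `ℝᵃ`, `ℝᵇ` by `ι`, `κ`) -/
def NearlyAffineAt (ι : M → R a) (κ : N → R b) (ε D r : ℝ) (f : M → N) (x : M) : Prop :=
  ∃ (l : ℝ) (T : R a →L[ℝ] R b), 0 < l ∧ (∀ v, ‖T v‖ ≤ D * l * ‖v‖) ∧
    (∀ u, l * ‖der ι x u‖ ≤ ‖T (der ι x u)‖) ∧
    ∀ y : M, ‖ι y - ι x‖ ≤ r → ‖κ (f y) - κ (f x) - T (ι y - ι x)‖ ≤ ε * l * r

/-- for arbitrarily small scales `r`, `f` is `ε`-nearly affine at the scale `r`, with distortion at most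
`D`, at all points of `W` -/
def NearlyAffineOn (ι : M → R a) (κ : N → R b) (ε D : ℝ) (f : M → N) (W : Set M) : Prop :=
  ∀ r₀ : ℝ, 0 < r₀ → ∃ r : ℝ, 0 < r ∧ r < r₀ ∧ ∀ x ∈ W, NearlyAffineAt ι κ ε D r f x

/-- every open neighbourhood of the graph of `f` contains the graph of a diffeomorphism which agrees
with `f` off `W` -/
def Approximable (f : M → N) (W : Set M) : Prop :=
  ∀ O : Set (M × N), IsOpen O → (∀ x, (x, f x) ∈ O) →
    ∃ Φ : Diffeomorph (𝓡 4) (𝓡 4) M N ∞, (∀ x, (x, Φ x) ∈ O) ∧ ∀ x, x ∉ W → Φ x = f x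

end defs

/-- the model spaces are compact and connected -/
theorem Mfd.top_facts (M : Mfd) : CompactSpace M ∧ ConnectedSpace M ∧ T2Space M := by
  obtain ⟨h1, h2, h3, h4⟩ := Pool.Agent.L7h75.AH.s_TOP
  rcases M.model with ⟨⟨j⟩⟩ | ⟨⟨j⟩⟩
  · have : CompactSpace Prod13 := h1
    have : ConnectedSpace Prod13 := h2
    exact ⟨j.symm.compactSpace, j.symm.surjective.connectedSpace j.symm.continuous,
      j.symm.t2Space⟩
  · have : CompactSpace Twisted13 := h3
    have : ConnectedSpace Twisted13 := h4
    exact ⟨j.symm.compactSpace, j.symm.surjective.connectedSpace j.symm.continuous,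
      j.symm.t2Space⟩

/-- For every `a` there is `ε > 0` such that for homeomorphisms `f` between smooth structures `M ⊆ ℝᵃ`,
`N ⊆ ℝᵇ` on `S¹ × S³` (or on the twisted product) which are local diffeomorphisms off the open set `W`
and `ε`-nearly affine on `W` at arbitrarily small scales, with some distortion `D`: every
neighbourhood of the graph of `f` contains the graph of a diffeomorphism equal to `f` off `W`. -/
theorem result (a : ℕ) : ∃ ε : ℝ, 0 < ε ∧ ∀ (b : ℕ) (D : ℝ) (M N : Mfd) (ι : M → R a) (κ : N → R b)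
    (f : M ≃ₜ N) (W : Set M), SmoothEmbedding ι → SmoothEmbedding κ → IsOpen W →
    (∀ x, x ∉ W → LocDiff f x) → NearlyAffineOn ι κ ε D f W → Approximable f W := by
  obtain ⟨ε, hε, key⟩ := Pool.Agent.L7h17.AH.rel 4 a
  refine ⟨ε, hε, ?_⟩
  intro b D M N ι κ f W hι hκ hW hld hf O hO hfO
  have := M.smooth
  have := N.smooth
  obtain ⟨hc, hco, ht⟩ := M.top_facts
  obtain ⟨hc', hco', ht'⟩ := N.top_facts
  -- the set of the bad points
  have hop : IsOpen {x | LocDiff f x} := by
    rw [isOpen_iff_mem_nhds]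
    rintro x ⟨Ψ, hx, hΨ⟩
    filter_upwards [Ψ.open_source.mem_nhds hx] with y hy
    exact ⟨Ψ, hy, hΨ⟩
  have hbad : IsCompact {x | LocDiff f x}ᶜ := hop.isClosed_compl.isCompact
  obtain ⟨G, C', -, hC'W, hG1, hG2, hG3, hG4⟩ := key D M N (R b) ι κ f {x | LocDiff f x}ᶜ W O
    ⟨hι.1, hι.2.1, hι.2.2⟩ ⟨hκ.1, hκ.2.1, hκ.2.2⟩
    (hι.1.continuous.isClosedEmbedding hι.2.1).isInducing
    (hκ.1.continuous.isClosedEmbedding hκ.2.1).isInducing hbad hW
    (fun x hx => by
      by_contra h
      exact hx (hld x h)) (fun x hx => by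
      by_contra h
      exact hx h) hf hO hfO
  have hGl : IsLocalDiffeomorph (𝓡 4) (𝓡 4) ∞ G := hG2
  exact ⟨hGl.diffeomorphOfBijective hG1, hG4, fun x hx => hG3 x fun h => hx (hC'W h)⟩

end Pool.Agent.Results.MP_6db3ee_gt.NearlyAffineHomeomorphisms
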