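import Pool.Agent.L7h82.PS.Fin

/-!
# Manifolds with a smooth homeomorphism onto `S¹ × S³`

Let `M` be a smooth 4-manifold and `f : M → S¹ × S³` a homeomorphism which is of class `C^∞` near all
points off a set whose image has one-dimensional Hausdorff measure zero. There is no condition on the
ranks of the derivatives, and the inverse of `f` need not be differentiable anywhere on the image of
the critical points. Then there is a closed smooth 3-manifold `Y` which is homeomorphic to `S³`, by a
homeomorphism which is a local diffeomorphism off any prescribed point, and a homeomorphism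
`M → S¹ × Y` which is a local diffeomorphism off one point.

Thus `M` is `S¹ × Y` off one point, and `Y` is `S³` off any point. (By a theorem of Munkres and Smale
`Y` is then diffeomorphic to `S³`, and so `M` is diffeomorphic to the connected sum of `S¹ × S³` and a
homotopy 4-sphere. This is not used and not proved here.)

The starting result `SmoothHomeoSphereBundle` has the assumption that `f` has no points of rank one
or two over many fibres `S³`. Here this is replaced by a different method, which gives a manifold `Y`
instead of `S³`.

Idea. Let `f = (p, q)`. For generic `a ∈ S¹`, `b ∈ S³` the fibres `Y = p⁻¹(a)` and `q⁻¹(b)` are smooth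
closed submanifolds, which meet transversally in one point (Morse and Sard). The circle `q⁻¹(b)`
can be made transversal to all fibres of `p` by a modification of `f` in its neighbourhood. As `q` is
a smooth homeomorphism of `Y` onto `S³`, the complement of a point in `Y` is diffeomorphic to `ℝ³`,
and in the same way the complement of `p⁻¹(a) ∪ q⁻¹(b)` in `M` is diffeomorphic to `ℝ⁴` (starting
library, project SH). Now there is a map `π : M → Y` which is the identity on `Y` and constant on the
circle `q⁻¹(b)`, and such that `(p, π)` is a local diffeomorphism near the union of `Y` and the circle.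
This map into `S¹ × Y` is extended over the complementary open cell, with one exceptional point.
-/

set_option autoImplicit false

open Set Filter Topology Metric Function MeasureTheory
open scoped Manifold ContDiff

noncomputable section

namespace Pool.Agent.Results.MP_6db3ee_gt.SmoothHomeomorphisms

/-- `ℝⁿ` with the euclidean norm -/
abbrev R (n : ℕ) : Type := EuclideanSpace ℝ (Fin n)

/-- the norm of `ℝⁿ` -/
instance (n : ℕ) : NormedAddCommGroup (R n) := inferInstance

/-- the vector space `ℝⁿ` -/
instance (n : ℕ) : NormedSpace ℝ (R n) := inferInstance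

/-- the unit sphere of dimension `n` in `ℝⁿ⁺¹`; this is the circle for `n = 1` -/
def Sph (n : ℕ) : Type := sphere (0 : R (n + 1)) 1

/-- the metric of `ℝⁿ⁺¹` on the sphere -/
instance (n : ℕ) : MetricSpace (Sph n) := inferInstanceAs (MetricSpace (sphere (0 : R (n + 1)) 1))

/-- the standard smooth atlas of the sphere (stereographic projections) -/
instance (n : ℕ) : ChartedSpace (R n) (Sph n) :=
  inferInstanceAs (ChartedSpace (R n) (sphere (0 : R (n + 1)) 1))

/-- `f` is of class `C^∞` near `x` (no condition is imposed on the derivative) -/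
def SmoothNear {M : Type} [TopologicalSpace M] [ChartedSpace (R 4) M] (f : M → Sph 1 × Sph 3) (x : M) :
    Prop := ∀ᶠ y in 𝓝 x, ContMDiffAt (𝓡 4) ((𝓡 1).prod (𝓡 3)) ∞ f y

/-- a subset of a metric space with one-dimensional Hausdorff measure zero -/
def LengthZero {X : Type} [MetricSpace X] (B : Set X) : Prop :=
  @Measure.hausdorffMeasure X _ (borel X) (@BorelSpace.mk X _ (borel X) rfl) 1 B = 0

/-- the homeomorphism `G : M → S¹ × Y` is a local diffeomorphism at all points but one -/
def LocDiffOffPoint {M Y : Type} [TopologicalSpace M] [ChartedSpace (R 4) M] [TopologicalSpace Y]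
    [ChartedSpace (R 3) Y] (G : M → Sph 1 × Y) : Prop :=
  ∃ x₀ : M, ∀ x, x ≠ x₀ → IsLocalDiffeomorphAt (𝓡 4) ((𝓡 1).prod (𝓡 3)) ∞ G x

/-- for every point `y₀` there is a homeomorphism of `Y` onto the 3-sphere which is a local
diffeomorphism at all points but `y₀` -/
def SphereOffPoints (Y : Type) [TopologicalSpace Y] [ChartedSpace (R 3) Y] : Prop :=
  ∀ y₀ : Y, ∃ κ : Y ≃ₜ Sph 3, ∀ y, y ≠ y₀ → IsLocalDiffeomorphAt (𝓡 3) (𝓡 3) ∞ κ y

theorem length_eq {X : Type} [MetricSpace X] [m : MeasurableSpace X] [b : BorelSpace X] (B : Set X)
    (h : LengthZero B) : Measure.hausdorffMeasure 1 B = 0 := by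
  unfold LengthZero at h
  obtain rfl : m = borel X := b.measurable_eq
  exact h

theorem result (M : Type) [TopologicalSpace M] [ChartedSpace (R 4) M] [IsManifold (𝓡 4) ∞ M]
    (f : M ≃ₜ Sph 1 × Sph 3) (hf : LengthZero (f '' {x | ¬ SmoothNear f x})) :
    ∃ (Y : Type) (_ : TopologicalSpace Y) (_ : ChartedSpace (R 3) Y) (_ : IsManifold (𝓡 3) ∞ Y),
      SphereOffPoints Y ∧ ∃ G : M ≃ₜ Sph 1 × Y, LocDiffOffPoint G := by
  obtain ⟨Y, h1, h2, h3, G, x₀, hG, hY⟩ := Pool.Agent.L7h82.PS.final M f
    (length_eq (X := sphere (0 : R 2) 1 × sphere (0 : R 4) 1) _ hf)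
  exact ⟨Y, h1, h2, h3, hY, G, x₀, hG⟩

end Pool.Agent.Results.MP_6db3ee_gt.SmoothHomeomorphisms
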