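import Pool.Agent.R765.CO
import Pool.Agent.R765.CAll

/-!
# Tame homeomorphisms between smooth structures on `S¹ × S³` and `S¹ ×~ S³`

Let `X` be one of the topological 4-manifolds `S¹ × S³` and `S¹ ×~ S³` (the twisted product, as the
unit sphere bundle of the sum of the Moebius line bundle and a trivial bundle of rank three), and let
`M` and `N` be smooth 4-manifolds homeomorphic to `X`. A homeomorphism `g : M → N` is tame if and only
if every neighbourhood of its graph contains the graph of a diffeomorphism. So if some homeomorphism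
`M → N` is tame, then `M` and `N` are diffeomorphic.

The tame homeomorphisms are the least class of homeomorphisms between smooth 4-manifolds (without
boundary, possibly noncompact, possibly exotic) which contains the homeomorphisms with a compact set of
points at which they are not local diffeomorphisms and which

* are smooth (with an inverse which need not be differentiable) with derivatives of rank at least three,
  or
* are at every point a local diffeomorphism or cone monotone,

and which is closed under inverses, compositions, limits relative to infinity and extensions: a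
homeomorphism whose restriction to a neighbourhood of its compact set of bad points is tame is tame.
So different parts of `g` may be composed of different pieces through different intermediate
smooth manifolds.
-/

set_option autoImplicit false

open Set Filter Topology Metric Function
open scoped Manifold ContDiff

noncomputable section

namespace Pool.Agent.Results.MP_6db3ee_gt.TameHomeomorphisms

/-- `ℝ⁴` -/
abbrev R4 : Type := EuclideanSpace ℝ (Fin 4)

/-- the product `S¹ × S³` -/
abbrev Prod13 : Type := Circle × Metric.sphere (0 : R4) 1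

/-- the twisted product: the unit sphere bundle of the sum of the Moebius line bundle over the
circle (the line over `p` consists of the `z` with `z ^ 2 = |z| ^ 2 p`) and a trivial bundle of
rank three -/
abbrev Twisted13 : Type := {p : ℂ × ℂ × EuclideanSpace ℝ (Fin 3) //
  ‖p.1‖ = 1 ∧ p.2.1 ^ 2 = ((‖p.2.1‖ ^ 2 : ℝ) : ℂ) * p.1 ∧ ‖p.2.1‖ ^ 2 + ‖p.2.2‖ ^ 2 = 1}

/-- smooth 4-manifolds (Hausdorff, without boundary, possibly noncompact) -/
structure Mfd4 where
  /-- the set of points -/
  pts : Type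
  [top : TopologicalSpace pts]
  [chart : ChartedSpace R4 pts]
  smooth : IsManifold (𝓡 4) ∞ pts
  hausdorff : T2Space pts

instance : CoeSort Mfd4 Type := ⟨Mfd4.pts⟩

instance (M : Mfd4) : TopologicalSpace M := M.top

instance (M : Mfd4) : ChartedSpace R4 M := M.chart

/-- an open subset of a smooth 4-manifold as a smooth 4-manifold -/
def Mfd4.sub (M : Mfd4) (V : TopologicalSpace.Opens M) : Mfd4 where
  pts := V
  smooth := by
    have := M.smooth
    infer_instance
  hausdorff := by
    have := M.hausdorff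
    infer_instance

/-- the inclusion of an open subset -/
def Mfd4.incl (M : Mfd4) (V : TopologicalSpace.Opens M) : M.sub V → M := fun y => (show V from y).1

section defs

variable {M N : Type} [TopologicalSpace M] [TopologicalSpace N] [ChartedSpace R4 M]
  [ChartedSpace R4 N]

/-- `f` is a map of class `C^∞` -/
def Smooth (f : M → N) : Prop := ContMDiff (𝓡 4) (𝓡 4) ∞ f

/-- the derivative of `f` at `x`, as a linear map from `ℝ⁴` to `ℝ⁴` (in the preferred charts) -/
def der (f : M → N) (x : M) : R4 →L[ℝ] R4 := mfderiv (𝓡 4) (𝓡 4) f x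

/-- the rank of a linear map -/
def rank (L : R4 →L[ℝ] R4) : ℕ := Module.finrank ℝ (LinearMap.range L.toLinearMap)

/-- `f` is a local diffeomorphism (of class `C^∞`, with smooth inverse) at `x` -/
def LocDiff (f : M → N) (x : M) : Prop := IsLocalDiffeomorphAt (𝓡 4) (𝓡 4) ∞ f x

/-- For every direction `v` the increments of `h` near `0` in the directions near `v` lie in a
proper cone: there are `r > 0` and a linear functional `ℓ` with `r ‖h q - h p‖ < ℓ (h q - h p)` for
all `p`, `q` in the ball of radius `r` about `0` such that `‖q - p - t v‖ ≤ r t` for some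
`t > 0`. -/
def ConeIncrements (h : R4 → R4) : Prop :=
  ∀ v : R4, v ≠ 0 → ∃ (r : ℝ) (ℓ : R4 →L[ℝ] ℝ), 0 < r ∧ ∀ p q : R4, ‖p‖ ≤ r → ‖q‖ ≤ r →
    ∀ t : ℝ, 0 < t → ‖q - p - t • v‖ ≤ r * t → r * ‖h q - h p‖ < ℓ (h q - h p)

/-- `f` is cone monotone at `x`: it has increments in proper cones in some smooth coordinates
around `x = A 0` and around `f x` (`A` is a smooth parametrization around `x`, `B` a smooth
coordinate system around `f x`). -/
def ConeMonotone (f : M → N) (x : M) : Prop :=
  ∃ (A : R4 → M) (B : N → R4), A 0 = x ∧ LocDiff A 0 ∧ LocDiff B (f x) ∧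
    ConeIncrements fun p => B (f (A p))

/-- the set of the points at which `f` is not a local diffeomorphism -/
def bad (f : M → N) : Set M := {x | ¬ LocDiff f x}

/-- the graph of `f` is contained in `O` -/
def GraphIn (f : M → N) (O : Set (M × N)) : Prop := ∀ x, (x, f x) ∈ O

end defs

/-- The least class of homeomorphisms of smooth 4-manifolds which contains the ones with a compact set
of bad points which are smooth with derivatives of rank at least three or everywhere local
diffeomorphisms or cone monotone, and which is closed under inverses, compositions, limits relative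
to infinity and extensions from open neighbourhoods of the (compact) set of bad points. -/
inductive Tame : (M N : Mfd4) → (M ≃ₜ N) → Prop
  | corankOne {M N : Mfd4} (g : M ≃ₜ N) : IsCompact (bad g) →
      Smooth g → (∀ x, 3 ≤ rank (der g x)) → Tame M N g
  | coneMonotone {M N : Mfd4} (g : M ≃ₜ N) : IsCompact (bad g) →
      (∀ x, LocDiff g x ∨ ConeMonotone g x) → Tame M N g
  | inverse {M N : Mfd4} (g : M ≃ₜ N) : Tame M N g → Tame N M g.symm
  | composition {M N P : Mfd4} (g : M ≃ₜ N) (h : N ≃ₜ P) :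
      Tame M N g → Tame N P h → Tame M P (g.trans h)
  | limit {M N : Mfd4} (g : M ≃ₜ N) (h : Set (M × N) → (M ≃ₜ N)) (C : Set (M × N) → Set M) :
      (∀ O, IsOpen O → GraphIn g O → IsCompact (C O) ∧ GraphIn (h O) O ∧
        ∀ x, x ∉ C O → h O x = g x) →
      (∀ O, IsOpen O → GraphIn g O → Tame M N (h O)) → Tame M N g
  | extension {M N : Mfd4} (g : M ≃ₜ N) (V : TopologicalSpace.Opens M)
      (W : TopologicalSpace.Opens N) (k : M.sub V ≃ₜ N.sub W) :
      (∀ x, N.incl W (k x) = g (M.incl V x)) → bad g ⊆ V →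
      Tame (M.sub V) (N.sub W) k → Tame M N g

/-- every neighbourhood of the graph of `g` contains the graph of a diffeomorphism which agrees with
`g` outside a compact set -/
def Approximable (M N : Mfd4) (g : M ≃ₜ N) : Prop :=
  ∀ O : Set (M × N), IsOpen O → GraphIn g O →
    ∃ (Φ : Diffeomorph (𝓡 4) (𝓡 4) M N ∞) (C : Set M), IsCompact C ∧ GraphIn Φ O ∧
      ∀ x, x ∉ C → Φ x = g x

theorem approx_symm {M N : Mfd4} (g : M ≃ₜ N) (hg : Approximable M N g) :
    Approximable N M g.symm := by
  intro O hO hgO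
  obtain ⟨Φ, C, hC, hΦ, hoff⟩ := hg (Prod.swap ⁻¹' O) (hO.preimage continuous_swap) (fun x => by
    have := hgO (g x)
    rw [g.symm_apply_apply] at this
    exact this)
  refine ⟨Φ.symm, g '' C, hC.image g.continuous, fun y => ?_, fun y hy => ?_⟩
  · have := hΦ (Φ.symm y)
    rw [Φ.apply_symm_apply] at this
    exact this
  · have h1 : g.symm y ∉ C := fun h => hy ⟨_, h, g.apply_symm_apply y⟩
    have h2 := hoff _ h1
    rw [g.apply_symm_apply] at h2
    rw [← h2, Φ.symm_apply_apply, h2]

theorem approx_trans {M N P : Mfd4} (g : M ≃ₜ N) (h : N ≃ₜ P)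
    (hg : Approximable M N g) (hh : Approximable N P h) : Approximable M P (g.trans h) := by
  intro O hO hgO
  have c1 : Continuous fun z : N × P => ((g.symm z.1, z.2) : M × P) :=
    (g.symm.continuous.comp continuous_fst).prodMk continuous_snd
  obtain ⟨Ψ, D, hD, hΨ, hoff2⟩ := hh ((fun z : N × P => ((g.symm z.1, z.2) : M × P)) ⁻¹' O)
    (hO.preimage c1) (fun y => by
      have := hgO (g.symm y)
      rw [Homeomorph.trans_apply, g.apply_symm_apply] at this
      exact this)
  have c2 : Continuous fun z : M × N => ((z.1, Ψ z.2) : M × P) :=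
    continuous_fst.prodMk (Ψ.continuous.comp continuous_snd)
  obtain ⟨Φ, C, hC, hΦ, hoff⟩ := hg ((fun z : M × N => ((z.1, Ψ z.2) : M × P)) ⁻¹' O)
    (hO.preimage c2) (fun x => by
      have := hΨ (g x)
      simp only [mem_preimage, g.symm_apply_apply] at this
      exact this)
  refine ⟨Φ.trans Ψ, C ∪ g.symm '' D, hC.union (hD.image g.symm.continuous), hΦ, fun x hx => ?_⟩
  have h1 : Φ x = g x := hoff x fun h => hx (Or.inl h)
  have h2 : g x ∉ D := fun h => hx (Or.inr ⟨_, h, g.symm_apply_apply x⟩)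
  change Ψ (Φ x) = h (g x)
  rw [h1, hoff2 _ h2]

theorem corank_aux (X Y : Type) [TopologicalSpace X] [TopologicalSpace Y]
    [ChartedSpace R4 X] [ChartedSpace R4 Y] (hX1 : IsManifold (𝓡 4) ∞ X) (hX2 : T2Space X)
    (hY : IsManifold (𝓡 4) ∞ Y) (g : X ≃ₜ Y) (hb : IsCompact (bad g)) (hg : Smooth g)
    (hr : ∀ x, 3 ≤ rank (der g x)) (O : Set (X × Y)) (hO : IsOpen O) (hgO : GraphIn g O) :
    ∃ (Φ : Diffeomorph (𝓡 4) (𝓡 4) X Y ∞) (C : Set X), IsCompact C ∧ GraphIn Φ O ∧
      ∀ x, x ∉ C → Φ x = g x := by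
  obtain ⟨F, C, hC, hF, hd, hG, hoff⟩ :=
    Pool.Agent.R765.corankOne (m := 3) g hg (fun x _ => hr x) hb O hO hgO
  have hl : IsLocalDiffeomorph (𝓡 4) (𝓡 4) ∞ F := hd
  exact ⟨hl.diffeomorphOfBijective hF, C, hC, hG, hoff⟩

theorem cone_aux (X Y : Type) [TopologicalSpace X] [TopologicalSpace Y]
    [ChartedSpace R4 X] [ChartedSpace R4 Y] (hX1 : IsManifold (𝓡 4) ∞ X) (hX2 : T2Space X)
    (hY : IsManifold (𝓡 4) ∞ Y) (g : X ≃ₜ Y) (hb : IsCompact (bad g))
    (hg : ∀ x, LocDiff g x ∨ ConeMonotone g x)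
    (O : Set (X × Y)) (hO : IsOpen O) (hgO : GraphIn g O) :
    ∃ (Φ : Diffeomorph (𝓡 4) (𝓡 4) X Y ∞) (C : Set X), IsCompact C ∧ GraphIn Φ O ∧
      ∀ x, x ∉ C → Φ x = g x := by
  obtain ⟨F, C, hC, hF, hd, hG, hoff⟩ := Pool.Agent.R765.coneMonotone 4 X Y g O (fun x => by
    rcases hg x with h | ⟨A, B, h1, h2, h3, h4⟩
    · exact Or.inl h
    · exact Or.inr ⟨B, h3, A, h1, h2, h4⟩) hb hO hgO
  have hl : IsLocalDiffeomorph (𝓡 4) (𝓡 4) ∞ F := hd
  exact ⟨hl.diffeomorphOfBijective hF, C, hC, hG, hoff⟩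

/-- the inclusion of an open subset is a local diffeomorphism -/
theorem ld_val (X : Type) [TopologicalSpace X] [ChartedSpace R4 X]
    (V : TopologicalSpace.Opens X) (x : V) :
    LocDiff (fun y : V => (y : X)) x :=
  Pool.Agent.Y170.NA.LD_val (n := 4) V x

/-- gluing -/
theorem ext_aux (X Y : Type) [TopologicalSpace X] [TopologicalSpace Y]
    [ChartedSpace R4 X] [ChartedSpace R4 Y] (hX2 : T2Space X) (g : X ≃ₜ Y) (V : TopologicalSpace.Opens X)
    (W : TopologicalSpace.Opens Y) (k : V ≃ₜ W) (hk : ∀ x, (k x : Y) = g x) (hb : bad g ⊆ V)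
    (O : Set (X × Y)) (hgO : GraphIn g O)
    (Ψ : Diffeomorph (𝓡 4) (𝓡 4) V W ∞) (D : Set V) (hD : IsCompact D)
    (hΨ : ∀ x : V, ((x : X), (Ψ x : Y)) ∈ O) (hoff : ∀ x, x ∉ D → Ψ x = k x) :
    ∃ (Φ : Diffeomorph (𝓡 4) (𝓡 4) X Y ∞) (C : Set X), IsCompact C ∧ GraphIn Φ O ∧
      ∀ x, x ∉ C → Φ x = g x := by
  classical
  have hmem : ∀ x : X, x ∈ V ↔ g x ∈ W := by
    intro x
    constructor
    · intro hx
      rw [← hk ⟨x, hx⟩]
      exact (k ⟨x, hx⟩).2
    · intro hx
      have h1 := hk (k.symm ⟨g x, hx⟩)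
      rw [k.apply_symm_apply] at h1
      have h2 : x = (k.symm ⟨g x, hx⟩ : X) := g.injective h1
      rw [h2]
      exact (k.symm ⟨g x, hx⟩).2
  let F : X → Y := fun x => if h : x ∈ V then (Ψ ⟨x, h⟩ : Y) else g x
  have hFV : ∀ x (h : x ∈ V), F x = Ψ ⟨x, h⟩ := fun x h => dif_pos h
  have hFn : ∀ x, x ∉ V → F x = g x := fun x h => dif_neg h
  let C : Set X := (fun y : V => (y : X)) '' D
  have hC : IsCompact C := hD.image continuous_subtype_val
  have hFC : ∀ x, x ∉ C → F x = g x := by
    intro x hx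
    by_cases h : x ∈ V
    · rw [hFV x h, hoff ⟨x, h⟩ (fun h1 => hx ⟨_, h1, rfl⟩), hk]
    · exact hFn x h
  have hbij : Bijective F := by
    constructor
    · intro x y hxy
      by_cases hx : x ∈ V <;> by_cases hy : y ∈ V
      · rw [hFV x hx, hFV y hy] at hxy
        exact congrArg Subtype.val (Ψ.injective (Subtype.ext hxy))
      · rw [hFV x hx, hFn y hy] at hxy
        exact absurd ((hmem y).2 (hxy ▸ (Ψ ⟨x, hx⟩).2)) hy
      · rw [hFn x hx, hFV y hy] at hxy
        exact absurd ((hmem x).2 (hxy ▸ (Ψ ⟨y, hy⟩).2)) hx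
      · rw [hFn x hx, hFn y hy] at hxy
        exact g.injective hxy
    · intro y
      by_cases hy : y ∈ W
      · obtain ⟨⟨x, hx⟩, hxy⟩ := Ψ.surjective ⟨y, hy⟩
        refine ⟨x, ?_⟩
        rw [hFV x hx]
        exact congrArg (fun w : W => (w : Y)) hxy
      · have h1 : g.symm y ∉ V := fun h => hy (by
          have := (hmem _).1 h
          rwa [g.apply_symm_apply] at this)
        exact ⟨g.symm y, by rw [hFn _ h1, g.apply_symm_apply]⟩
  have hld : ∀ x, LocDiff F x := by
    intro x
    by_cases hx : x ∈ V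
    · obtain ⟨p, hp1, hp2, -, hp4⟩ := (Pool.Agent.Y170.NA.LD_val (n := 4) V ⟨x, hx⟩).exists_inverse
      have h1 : LocDiff (fun z => ((Ψ (p z) : W) : Y)) x := by
        have h2 : Pool.Agent.Y522.LD 4 (fun w : V => ((Ψ w : W) : Y)) (p x) := by
          have h3 : Pool.Agent.Y522.LD 4 (Ψ : V → W) (p x) := Ψ.isLocalDiffeomorph _
          exact Pool.Agent.Y522.LD.comp_fun (Pool.Agent.Y170.NA.LD_val (n := 4) W (Ψ (p x))) h3
        exact Pool.Agent.Y522.LD.comp_fun (g := fun w : V => ((Ψ w : W) : Y)) (f := p) h2 hp1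
      refine Pool.Agent.Y522.LD.congr h1 ?_
      filter_upwards [hp4, V.isOpen.mem_nhds hx] with z hz hzV
      rw [hFV z hzV]
      have h4 : p z = ⟨z, hzV⟩ := Subtype.ext hz
      rw [h4]
    · have h1 : LocDiff g x := by
        by_contra h
        exact hx (hb h)
      refine Pool.Agent.Y522.LD.congr h1 ?_
      have h2 : x ∉ C := by
        rintro ⟨y, -, rfl⟩
        exact hx y.2
      filter_upwards [hC.isClosed.isOpen_compl.mem_nhds h2] with z hz
      exact hFC z hz
  have hl : IsLocalDiffeomorph (𝓡 4) (𝓡 4) ∞ F := hld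
  refine ⟨hl.diffeomorphOfBijective hbij, C, hC, fun x => ?_, hFC⟩
  change (x, F x) ∈ O
  by_cases hx : x ∈ V
  · rw [hFV x hx]
    exact hΨ ⟨x, hx⟩
  · rw [hFn x hx]
    exact hgO x

theorem approx_ext {M N : Mfd4} (g : M ≃ₜ N) (V : TopologicalSpace.Opens M)
    (W : TopologicalSpace.Opens N) (k : M.sub V ≃ₜ N.sub W)
    (hk : ∀ x, N.incl W (k x) = g (M.incl V x)) (hb : bad g ⊆ V)
    (h : Approximable (M.sub V) (N.sub W) k) : Approximable M N g := by
  intro O hO hgO
  have c1 : Continuous fun z : M.sub V × N.sub W => ((M.incl V z.1, N.incl W z.2) : M × N) :=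
    (continuous_subtype_val.comp continuous_fst).prodMk (continuous_subtype_val.comp continuous_snd)
  obtain ⟨Ψ, D, hD, hΨ, hoff⟩ := h _ (hO.preimage c1) (fun x => by
    show (M.incl V x, N.incl W (k x)) ∈ O
    rw [hk]
    exact hgO _)
  exact ext_aux M N M.hausdorff g V W k hk hb O hgO Ψ D hD hΨ hoff

theorem approx_of_tame {M N : Mfd4} (g : M ≃ₜ N) (hg : Tame M N g) : Approximable M N g := by
  induction hg with
  | @corankOne M N g hb hs hr => exact corank_aux M N M.smooth M.hausdorff N.smooth g hb hs hr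
  | @coneMonotone M N g hb hc => exact cone_aux M N M.smooth M.hausdorff N.smooth g hb hc
  | inverse g _ ih => exact approx_symm g ih
  | composition g h _ _ ih1 ih2 => exact approx_trans g h ih1 ih2
  | limit g h C h1 _ ih =>
    intro O hO hgO
    obtain ⟨hC, hG, hoff⟩ := h1 O hO hgO
    obtain ⟨Φ, D, hD, hΦ, hoff2⟩ := ih O hO hgO O hO hG
    refine ⟨Φ, C O ∪ D, hC.union hD, hΦ, fun x hx => ?_⟩
    rw [hoff2 x fun h => hx (Or.inr h), hoff x fun h => hx (Or.inl h)]
  | extension g V W k hk hb _ ih => exact approx_ext g V W k hk hb ih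

/-- `Twisted13` is compact -/
theorem twisted_compact : CompactSpace Twisted13 := by
  refine isCompact_iff_compactSpace.1 ?_
  have hcl : IsClosed {p : ℂ × ℂ × EuclideanSpace ℝ (Fin 3) |
      ‖p.1‖ = 1 ∧ p.2.1 ^ 2 = ((‖p.2.1‖ ^ 2 : ℝ) : ℂ) * p.1 ∧ ‖p.2.1‖ ^ 2 + ‖p.2.2‖ ^ 2 = 1} := by
    refine IsClosed.inter ?_ (IsClosed.inter ?_ ?_)
    · exact isClosed_eq (by fun_prop) (by fun_prop)
    · exact isClosed_eq (by fun_prop) (by fun_prop)
    · exact isClosed_eq (by fun_prop) (by fun_prop)
  refine (((isCompact_closedBall (0 : ℂ) 1).prod ((isCompact_closedBall (0 : ℂ) 1).prod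
    (isCompact_closedBall (0 : EuclideanSpace ℝ (Fin 3)) 1)))).of_isClosed_subset hcl ?_
  rintro ⟨a, b, c⟩ ⟨h1, -, h3⟩
  simp only at h1 h3
  simp only [Set.mem_prod, mem_closedBall_zero_iff]
  refine ⟨h1.le, ?_, ?_⟩
  · nlinarith [norm_nonneg b, norm_nonneg c, sq_nonneg ‖c‖]
  · nlinarith [norm_nonneg b, norm_nonneg c, sq_nonneg ‖b‖]

theorem tame_of_diffeo (M N : Mfd4) (Φ : Diffeomorph (𝓡 4) (𝓡 4) M N ∞) :
    Tame M N Φ.toHomeomorph := by
  have h : ∀ x, LocDiff Φ.toHomeomorph x := fun x => Φ.isLocalDiffeomorph x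
  refine Tame.coneMonotone _ ?_ fun x => Or.inl (h x)
  have h1 : bad Φ.toHomeomorph = ∅ := eq_empty_of_forall_notMem fun x hx => hx (h x)
  rw [h1]
  exact isCompact_empty

theorem result (M N : Mfd4) (hM : Nonempty (M ≃ₜ Prod13) ∨ Nonempty (M ≃ₜ Twisted13))
    (g : M ≃ₜ N) : Tame M N g ↔ ∀ O : Set (M × N), IsOpen O → GraphIn g O →
      ∃ Φ : Diffeomorph (𝓡 4) (𝓡 4) M N ∞, GraphIn Φ O := by
  classical
  constructor
  · intro hg O hO hgO
    obtain ⟨Φ, -, -, hΦ, -⟩ := approx_of_tame g hg O hO hgO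
    exact ⟨Φ, hΦ⟩
  · intro h
    have hc : CompactSpace M := by
      rcases hM with ⟨⟨e⟩⟩ | ⟨⟨e⟩⟩
      · exact e.symm.compactSpace
      · have := twisted_compact
        exact e.symm.compactSpace
    choose Φ hΦ using h
    refine Tame.limit g (fun O => if h : IsOpen O ∧ GraphIn g O then (Φ O h.1 h.2).toHomeomorph
      else g) (fun _ => univ) (fun O h1 h2 => ?_) (fun O h1 h2 => ?_)
    · refine ⟨isCompact_univ, ?_, fun x hx => absurd (mem_univ x) hx⟩
      rw [dif_pos ⟨h1, h2⟩]
      exact hΦ O h1 h2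
    · rw [dif_pos ⟨h1, h2⟩]
      exact tame_of_diffeo M N _

end Pool.Agent.Results.MP_6db3ee_gt.TameHomeomorphisms
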